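import Pool.Graph.R_seed8.R688.PC.Serre2

set_option autoImplicit false

/-!
# Vanishing Bass numbers of an arbitrary perfect algebra force regularity
-/

open CategoryTheory Abelian IsLocalRing

universe u

namespace Pool.Agent.Results.MP_c091ab_al.PerfectAlgebras

/-- The perfect closure `Q^∞` of a ring `Q` of characteristic `p` (Mathlib's `PerfectClosure Q p`, the
direct limit of `Q → Q → Q → ⋯` along the Frobenius map), regarded as a module over `R` through a ring
homomorphism `f : R → Q` followed by the canonical map of `Q` (the first copy) to `Q^∞`. -/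
noncomputable def perfOver {R Q : Type u} [CommRing R] [CommRing Q] (f : R →+* Q) (p : ℕ)
    [Fact p.Prime] [CharP Q p] : ModuleCat.{u} R :=
  letI := Module.compHom (PerfectClosure Q p) ((PerfectClosure.of Q p).comp f)
  ModuleCat.of R (PerfectClosure Q p)

open R688.PC in
/-- The general statement, for one perfect algebra. -/
theorem main (R : Type u) [CommRing R] [IsLocalRing R] [IsNoetherianRing R] (p : ℕ)
    [Fact p.Prime] (S : Type u) [CommRing S] [Algebra R S] [CharP S p]
    (hperf : Function.Bijective (fun s : S => s ^ p))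
    (hS : (maximalIdeal R).map (algebraMap R S) ≠ ⊤) (i : ℕ) (hi : ringKrullDim R < i)
    (h : Subsingleton (Ext (ModuleCat.of R (R ⧸ maximalIdeal R)) (ModuleCat.of R S) i)) :
    IsRegularLocalRing R := by
  -- a system of parameters
  obtain ⟨s, hs, hcard⟩ := (maximalIdeal R).exists_finset_card_eq_height_of_isNoetherianRing
  have hd : ringKrullDim R = (s.card : WithBot ℕ∞) := by
    rw [← IsLocalRing.maximalIdeal_height_eq_ringKrullDim, ← hcard]
    rfl
  have hlen : s.toList.length = s.card := Finset.length_toList s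
  have hi' : s.card < i := by
    rw [hd] at hi
    exact_mod_cast hi
  have hset : {x | x ∈ s.toList} = (s : Set R) := by
    ext x
    simp
  have hrad : maximalIdeal R ≤ (Ideal.span {x | x ∈ s.toList}).radical := by
    rw [hset, Ideal.radical_eq_sInf]
    refine le_sInf ?_
    rintro P ⟨hP, hPp⟩
    exact hs.2 ⟨hPp, hP⟩ (IsLocalRing.le_maximalIdeal hPp.ne_top)
  have hall : ∀ j, i ≤ j → Subsingleton (Ext (ModuleCat.of R (R ⧸ maximalIdeal R))
      (ModuleCat.of R S) j) := by
    intro j hj
    refine bass_up (maximalIdeal R) s.toList ?_ hrad S i (by omega) h j hj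
    intro x hx
    exact hs.1.2 (Ideal.subset_span (by simpa using hx))
  -- a residue field of `S`
  obtain ⟨n, hn, hle⟩ := Ideal.exists_le_maximal _ hS
  let fk : Field (S ⧸ n) := Ideal.Quotient.field n
  have hchar : CharP (S ⧸ n) p := by
    rw [CharP.charP_iff_prime_eq_zero (Fact.out : p.Prime)]
    rw [← map_natCast (Ideal.Quotient.mk n), CharP.cast_eq_zero S p, map_zero]
  have hψ : ∀ x ∈ maximalIdeal R, (Ideal.Quotient.mk n) (algebraMap R S x) = 0 := by
    intro x hx
    exact Ideal.Quotient.eq_zero_iff_mem.2 (hle (Ideal.mem_map_of_mem _ hx))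
  -- generators of the maximal ideal
  obtain ⟨t, ht⟩ := (inferInstance : IsNoetherian R R).noetherian (maximalIdeal R)
  have hkk : Subsingleton (Ext (ModuleCat.of R (R ⧸ maximalIdeal R))
      (ModuleCat.of R (R ⧸ maximalIdeal R)) i) := by
    refine perf_main (maximalIdeal R) (p := p) (S ⧸ n) i t.toList S hperf hall
      (Ideal.Quotient.mk n) ?_ ?_
    · intro x hx
      apply hψ
      rw [← ht]
      exact Submodule.subset_span (by simpa using hx)
    · intro x hx
      rw [← ht] at hx
      have h1 : Ideal.span (t : Set R) ≤ Ideal.comap (algebraMap R S)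
          (Ideal.span {a | ∃ y ∈ t.toList, a = algebraMap R S y}) := by
        rw [Ideal.span_le]
        intro y hy
        exact Ideal.subset_span ⟨y, by simpa using hy, rfl⟩
      exact h1 hx
  exact serre s.card R hd.le i hkk

/-- If `m Q ≠ Q` then `m Q^∞ ≠ Q^∞`. -/
lemma map_ne_top {R Q : Type u} [CommRing R] [CommRing Q] (I : Ideal R) (f : R →+* Q) (p : ℕ)
    [Fact p.Prime] [CharP Q p] (hI : I.map f ≠ ⊤) :
    I.map ((PerfectClosure.of Q p).comp f) ≠ ⊤ := by
  obtain ⟨n, hn, hle⟩ := Ideal.exists_le_maximal _ hI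
  let fk : Field (Q ⧸ n) := Ideal.Quotient.field n
  have hchar : CharP (Q ⧸ n) p := by
    rw [CharP.charP_iff_prime_eq_zero (Fact.out : p.Prime)]
    rw [← map_natCast (Ideal.Quotient.mk n), CharP.cast_eq_zero Q p, map_zero]
  let ψ : PerfectClosure Q p →+* PerfectClosure (Q ⧸ n) p :=
    PerfectClosure.lift Q p (PerfectClosure (Q ⧸ n) p)
      ((PerfectClosure.of (Q ⧸ n) p).comp (Ideal.Quotient.mk n))
  have hψ : ∀ x : Q, ψ (PerfectClosure.of Q p x) =
      PerfectClosure.of (Q ⧸ n) p (Ideal.Quotient.mk n x) := by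
    intro x
    exact RingHom.congr_fun ((PerfectClosure.lift Q p (PerfectClosure (Q ⧸ n) p)).symm_apply_apply
      ((PerfectClosure.of (Q ⧸ n) p).comp (Ideal.Quotient.mk n))) x
  intro htop
  have hle' : I.map ((PerfectClosure.of Q p).comp f) ≤ RingHom.ker ψ := by
    rw [Ideal.map_le_iff_le_comap]
    intro x hx
    rw [Ideal.mem_comap, RingHom.mem_ker, RingHom.comp_apply, hψ,
      Ideal.Quotient.eq_zero_iff_mem.2 (hle (Ideal.mem_map_of_mem _ hx)), map_zero]
  rw [htop, top_le_iff] at hle'
  have h2 : (1 : PerfectClosure Q p) ∈ RingHom.ker ψ := by rw [hle']; trivial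
  rw [RingHom.mem_ker, map_one] at h2
  exact one_ne_zero h2

/-- Let `(R, m, k)` be a noetherian local ring of any characteristic.
(1) If `S` is any perfect `R`-algebra of prime characteristic `p` with `m S ≠ S` and
`Ext^i_R(k, S) = 0` for one `i > dim R`, then `R` is regular.
(2) If `Q` is any `R`-algebra (given by `f : R → Q`) of prime characteristic `p` with `m Q ≠ Q` and
`Ext^i_R(k, Q^∞) = 0` for one `i > dim R`, then `R` is regular.
(3) In particular, if `R` has characteristic `p` and `Ext^i_R(k, R^∞) = 0` for one `i > dim R`, then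
`R` is regular. -/
theorem result (R : Type u) [CommRing R] [IsLocalRing R] [IsNoetherianRing R] (p : ℕ)
    [Fact p.Prime] (i : ℕ) (hi : ringKrullDim R < i) :
    (∀ (S : Type u) [CommRing S] [Algebra R S] [CharP S p],
      Function.Bijective (fun s : S => s ^ p) →
      (maximalIdeal R).map (algebraMap R S) ≠ ⊤ →
      Subsingleton (Ext (ModuleCat.of R (R ⧸ maximalIdeal R)) (ModuleCat.of R S) i) →
      IsRegularLocalRing R) ∧
    (∀ (Q : Type u) [CommRing Q] [CharP Q p] (f : R →+* Q), (maximalIdeal R).map f ≠ ⊤ →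
      Subsingleton (Ext (ModuleCat.of R (R ⧸ maximalIdeal R)) (perfOver f p) i) →
      IsRegularLocalRing R) ∧
    (∀ [CharP R p],
      Subsingleton (Ext (ModuleCat.of R (R ⧸ maximalIdeal R)) (perfOver (RingHom.id R) p) i) →
      IsRegularLocalRing R) := by
  have h2 : ∀ (Q : Type u) [CommRing Q] [CharP Q p] (f : R →+* Q), (maximalIdeal R).map f ≠ ⊤ →
      Subsingleton (Ext (ModuleCat.of R (R ⧸ maximalIdeal R)) (perfOver f p) i) →
      IsRegularLocalRing R := by
    intro Q _ _ f hf hE
    let alg : Algebra R (PerfectClosure Q p) := ((PerfectClosure.of Q p).comp f).toAlgebra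
    have hE' : Subsingleton (Ext (ModuleCat.of R (R ⧸ maximalIdeal R))
        (ModuleCat.of R (PerfectClosure Q p)) i) := hE
    exact main R p (PerfectClosure Q p)
      (PerfectRing.bijective_frobenius (R := PerfectClosure Q p) (p := p))
      (map_ne_top (maximalIdeal R) f p hf) i hi hE'
  refine ⟨fun S _ _ _ hS hm hE => main R p S hS hm i hi hE, h2, fun {_} hE => ?_⟩
  refine h2 R (RingHom.id R) ?_ hE
  rw [Ideal.map_id]
  exact (maximalIdeal.isMaximal R).ne_top

end Pool.Agent.Results.MP_c091ab_al.PerfectAlgebras
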